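import Pool.Agent.Helper74.RG.Defs

/-!
# Block A3: the rank of the dual under norm surjectivity
-/

set_option autoImplicit false

namespace Pool.Agent.Helper42.RG

open Pool.Agent.Helper74.RG Module

section A

variable {s : ℕ} {k : Type} [Field k] {H : Type} [AddCommGroup H] [Module k H]
  {T : Fin s → Module.End k H}

theorem act_shift (hT : LN T) {α : Fin s →₀ ℕ} {q : ℕ} (hq : ∀ i, α i ≤ q) {z y : H}
    (hz : z ∈ box T (q + 1)) (hy : mon T (fun _ => q) z = y) (f : MvPowerSeries (Fin s) k)
    (hf : ∀ β, β < α → MvPowerSeries.coeff β f = 0) :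
    act T f (mon T (fun i => q - α i) z) = MvPowerSeries.coeff α f • y := by
  unfold act
  rw [finsum_eq_single _ α]
  · rw [← Module.End.mul_apply, ← hT.mon_add]
    have : (⇑α + fun i => q - α i) = fun _ => q := by
      funext i
      simp only [Pi.add_apply]
      have := hq i
      omega
    rw [this, hy]
  · intro β hβ
    by_cases hle : β ≤ α
    · rw [hf β (lt_of_le_of_ne hle hβ), zero_smul]
    · rw [Finsupp.le_def] at hle
      push Not at hle
      obtain ⟨l, hl⟩ := hle
      have h1 : mon T β (mon T (fun i => q - α i) z) = 0 := by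
        rw [← Module.End.mul_apply, ← hT.mon_add]
        apply hT.mon_eq_zero (mem_box.mp hz l)
        simp only [Pi.add_apply]
        have := hq l
        omega
      rw [h1, smul_zero]

/-- A3, with the first part of A1 as a hypothesis. -/
theorem rank_of_NS_aux (hT : LN T) [FiniteDimensional k (inv T)] (hNS : NS T)
    (span_top : ∀ {m : ℕ} (x : Fin m → DR hT),
      (∀ h ∈ inv T, (∀ i, (x i).toDual h = 0) → h = 0) →
      Submodule.span (MvPowerSeries (Fin s) k) (Set.range x) = ⊤) :
    finrank (MvPowerSeries (Fin s) k) (DR hT) = finrank k (inv T) := by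
  classical
  set m := finrank k (inv T) with hm
  let b : Basis (Fin m) k (inv T) := finBasis k (inv T)
  choose g hg using fun i : Fin m => LinearMap.exists_extend (b.coord i)
  let x : Fin m → DR hT := fun i => DR.of hT (g i)
  have hx : ∀ i, ∀ h : inv T, (x i).toDual (h : H) = b.coord i h := by
    intro i h
    have := LinearMap.congr_fun (hg i) h
    exact this
  have hsp : Submodule.span (MvPowerSeries (Fin s) k) (Set.range x) = ⊤ := by
    apply span_top x
    intro h hh h0
    have h1 : (⟨h, hh⟩ : inv T) = 0 := by
      apply b.ext_elem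
      intro i
      have := h0 i
      rw [hx i ⟨h, hh⟩] at this
      rw [map_zero, Finsupp.zero_apply]
      exact this
    exact congrArg Subtype.val h1
  have hli : LinearIndependent (MvPowerSeries (Fin s) k) x := by
    rw [Fintype.linearIndependent_iff]
    intro f hf
    by_contra hcon
    push Not at hcon
    obtain ⟨i0, hi0⟩ := hcon
    have hne : {α : Fin s →₀ ℕ | ∃ i, MvPowerSeries.coeff α (f i) ≠ 0}.Nonempty := by
      by_contra hemp
      rw [Set.not_nonempty_iff_eq_empty] at hemp
      apply hi0
      ext α
      by_contra hα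
      have : α ∈ {α : Fin s →₀ ℕ | ∃ i, MvPowerSeries.coeff α (f i) ≠ 0} :=
        ⟨i0, by simpa using hα⟩
      rw [hemp] at this
      exact this
    obtain ⟨α, ⟨j, hj⟩, hmin⟩ := WellFounded.has_min
      (wellFounded_lt : WellFounded ((· < ·) : (Fin s →₀ ℕ) → (Fin s →₀ ℕ) → Prop)) _ hne
    apply hj
    set q : ℕ := ∑ i, α i with hq
    have hαq : ∀ i, α i ≤ q := fun i =>
      Finset.single_le_sum (f := fun i => α i) (fun _ _ => Nat.zero_le _) (Finset.mem_univ i)
    obtain ⟨z, hz, hzy⟩ := hNS q (b j : inv T) (b j).2
    have h1 : (∑ i, f i • x i).toDual (mon T (fun i => q - α i) z) = 0 := by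
      rw [hf]; rfl
    rw [DR.sum_apply] at h1
    have h2 : ∀ i, (f i • x i).toDual (mon T (fun i => q - α i) z) =
        MvPowerSeries.coeff α (f i) * b.coord i (b j) := by
      intro i
      rw [DR.smul_apply, act_shift hT hαq hz hzy (f i) (by
        intro β hβ
        by_contra hne'
        exact hmin β ⟨i, hne'⟩ hβ), map_smul, hx i (b j), smul_eq_mul]
    simp only [h2] at h1
    rw [Finset.sum_eq_single j] at h1
    · rw [Basis.coord_apply, Basis.repr_self, Finsupp.single_eq_same, mul_one] at h1
      exact h1
    · intro i _ hij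
      rw [Basis.coord_apply, Basis.repr_self, Finsupp.single_eq_of_ne hij, mul_zero]
    · intro h; exact absurd (Finset.mem_univ _) h
  have hb : Basis (Fin m) (MvPowerSeries (Fin s) k) (DR hT) := Basis.mk hli hsp.ge
  rw [Module.finrank_eq_card_basis hb, Fintype.card_fin]

end A

end Pool.Agent.Helper42.RG
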